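import Mathlib

set_option autoImplicit false

namespace Pool.Agent.Helper868_gq

open Finset PowerSeries

/-- The series `G_{k,n}(q) = (q^{2k-1};q^2)_n / (q;q^2)_{n+1}`. -/
noncomputable def G (k n : ℕ) : PowerSeries ℚ :=
  (∏ i ∈ range n, (1 - (X : PowerSeries ℚ) ^ (2 * k - 1 + 2 * i))) *
    (∏ i ∈ range (n + 1), (1 - (X : PowerSeries ℚ) ^ (2 * i + 1)))⁻¹

/-- non-negative coefficients -/
def NN (f : PowerSeries ℚ) : Prop := ∀ m, 0 ≤ coeff m f

lemma NN.mul {f g : PowerSeries ℚ} (hf : NN f) (hg : NN g) : NN (f * g) := by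
  intro m
  rw [coeff_mul]
  exact Finset.sum_nonneg fun p _ => mul_nonneg (hf _) (hg _)

lemma NN.add {f g : PowerSeries ℚ} (hf : NN f) (hg : NN g) : NN (f + g) := by
  intro m
  rw [map_add]
  exact add_nonneg (hf _) (hg _)

lemma NN_pow (a : ℕ) : NN ((X : PowerSeries ℚ) ^ a) := by
  intro m
  rw [coeff_X_pow]
  split_ifs <;> norm_num

lemma NN_one : NN (1 : PowerSeries ℚ) := by
  have := NN_pow 0
  simpa using this

lemma NN_sum {ι : Type} (s : Finset ι) (f : ι → PowerSeries ℚ) (h : ∀ i ∈ s, NN (f i)) :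
    NN (∑ i ∈ s, f i) := by
  intro m
  rw [map_sum]
  exact Finset.sum_nonneg fun i hi => h i hi m

lemma NN_geom (b u : ℕ) : NN (∑ i ∈ range u, ((X : PowerSeries ℚ) ^ b) ^ i) := by
  apply NN_sum
  intro i _
  rw [← pow_mul]
  exact NN_pow _

/-- `1 / (1 - X ^ b)` -/
noncomputable def geo (b : ℕ) : PowerSeries ℚ := PowerSeries.mk fun m => if b ∣ m then 1 else 0

lemma NN_geo (b : ℕ) : NN (geo b) := by
  intro m
  rw [geo, coeff_mk]
  split_ifs <;> norm_num

lemma geo_mul (b : ℕ) (hb : 0 < b) : geo b * (1 - (X : PowerSeries ℚ) ^ b) = 1 := by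
  ext m
  rw [mul_sub, mul_one, map_sub, coeff_mul_X_pow', geo, coeff_mk, coeff_one]
  by_cases h : b ≤ m
  · rw [if_pos h, coeff_mk, if_neg (show m ≠ 0 by omega)]
    have : (b ∣ m) ↔ (b ∣ m - b) := by
      constructor
      · intro h1; exact Nat.dvd_sub h1 (dvd_refl b)
      · intro h1
        have := Nat.dvd_add h1 (dvd_refl b)
        rwa [Nat.sub_add_cancel h] at this
    by_cases h2 : b ∣ m
    · rw [if_pos h2, if_pos (this.mp h2)]; norm_num
    · rw [if_neg h2, if_neg (fun h3 => h2 (this.mpr h3))]; norm_num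
  · rw [if_neg h, sub_zero]
    by_cases h0 : m = 0
    · subst h0; simp
    · rw [if_neg h0, if_neg]
      intro h1
      exact h (Nat.le_of_dvd (by omega) h1)

lemma split_geom (b u : ℕ) : (1 : PowerSeries ℚ) - X ^ (b * u) =
    (1 - X ^ b) * ∑ i ∈ range u, ((X : PowerSeries ℚ) ^ b) ^ i := by
  rw [mul_neg_geom_sum, pow_mul]

/-- the case of one numerator and two denominators -/
lemma NN_frob (b c u v : ℕ) (hb : 0 < b) (hc : 0 < c) :
    NN ((1 - (X : PowerSeries ℚ) ^ (b * u + c * v)) * geo b * geo c) := by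
  have h1 : (1 : PowerSeries ℚ) - X ^ (b * u + c * v) =
      (1 - X ^ (b * u)) + X ^ (b * u) * (1 - X ^ (c * v)) := by
    rw [pow_add]; ring
  have h2 : (1 - (X : PowerSeries ℚ) ^ (b * u + c * v)) * geo b * geo c =
      (∑ i ∈ range u, ((X : PowerSeries ℚ) ^ b) ^ i) * geo c * (geo b * (1 - X ^ b)) +
      X ^ (b * u) * (∑ i ∈ range v, ((X : PowerSeries ℚ) ^ c) ^ i) * geo b *
        (geo c * (1 - X ^ c)) := by
    rw [h1, split_geom b u, split_geom c v]; ring
  rw [h2, geo_mul b hb, geo_mul c hc, mul_one, mul_one]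
  exact ((NN_geom b u).mul (NN_geo c)).add (((NN_pow _).mul (NN_geom c v)).mul (NN_geo b))

lemma NN_div (b u : ℕ) (hb : 0 < b) :
    NN ((1 - (X : PowerSeries ℚ) ^ (b * u)) * geo b) := by
  have h2 : (1 - (X : PowerSeries ℚ) ^ (b * u)) * geo b =
      (∑ i ∈ range u, ((X : PowerSeries ℚ) ^ b) ^ i) * (geo b * (1 - X ^ b)) := by
    rw [split_geom b u]; ring
  rw [h2, geo_mul b hb, mul_one]
  exact NN_geom b u

lemma inv_prod (s : Finset ℕ) (d : ℕ → ℕ) (hd : ∀ i, 0 < d i) :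
    (∏ i ∈ s, (1 - (X : PowerSeries ℚ) ^ (d i)))⁻¹ = ∏ i ∈ s, geo (d i) := by
  symm
  rw [PowerSeries.eq_inv_iff_mul_eq_one]
  · rw [← Finset.prod_mul_distrib]
    exact Finset.prod_eq_one fun i _ => geo_mul _ (hd i)
  · rw [map_prod, Finset.prod_ne_zero_iff]
    intro i _
    rw [map_sub, map_pow, constantCoeff_X, zero_pow (hd i).ne']
    simp

/-- the difference in product form -/
lemma diff_eq (k n : ℕ) (hk : n + 2 ≤ k) : G k (n + 1) - G (k + 1) n =
    X ^ (2 * n + 3) * ((1 - X ^ (2 * (k - n - 2))) * geo 1) *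
      ((∏ i ∈ range n, (1 - (X : PowerSeries ℚ) ^ (2 * k + 1 + 2 * i))) *
        ∏ i ∈ range (n + 1), geo (2 * i + 3)) := by
  unfold G
  rw [inv_prod _ (fun i => 2 * i + 1) (fun i => by omega),
    inv_prod _ (fun i => 2 * i + 1) (fun i => by omega)]
  rw [Finset.prod_range_succ' (fun i => 1 - (X : PowerSeries ℚ) ^ (2 * k - 1 + 2 * i)) n]
  have e1 : ∏ i ∈ range n, (1 - (X : PowerSeries ℚ) ^ (2 * k - 1 + 2 * (i + 1))) =
      ∏ i ∈ range n, (1 - (X : PowerSeries ℚ) ^ (2 * k + 1 + 2 * i)) := by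
    apply Finset.prod_congr rfl
    intro i _
    congr 2
    omega
  have e2 : ∏ i ∈ range n, (1 - (X : PowerSeries ℚ) ^ (2 * (k + 1) - 1 + 2 * i)) =
      ∏ i ∈ range n, (1 - (X : PowerSeries ℚ) ^ (2 * k + 1 + 2 * i)) := by
    apply Finset.prod_congr rfl
    intro i _
    congr 2
  rw [e1, e2]
  set P := ∏ i ∈ range n, (1 - (X : PowerSeries ℚ) ^ (2 * k + 1 + 2 * i)) with hP
  have e3 : ∏ i ∈ range (n + 1 + 1), geo (2 * i + 1) = geo 1 * ∏ i ∈ range (n + 1), geo (2 * i + 3) := by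
    rw [Finset.prod_range_succ']
    rw [mul_comm]
    congr 1
  have e4 : ∏ i ∈ range (n + 1), geo (2 * i + 1) =
      (∏ i ∈ range (n + 1 + 1), geo (2 * i + 1)) * (1 - X ^ (2 * n + 3)) := by
    rw [Finset.prod_range_succ (fun i => geo (2 * i + 1)) (n + 1), mul_assoc,
      show 2 * (n + 1) + 1 = 2 * n + 3 by ring, geo_mul _ (by omega), mul_one]
  rw [e4, e3]
  have e5 : (X : PowerSeries ℚ) ^ (2 * k - 1 + 2 * 0) = X ^ (2 * n + 3) * X ^ (2 * (k - n - 2)) := by
    rw [← pow_add]; congr 1; omega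
  rw [e5]
  ring

theorem case_two (k : ℕ) (hk : 3 ≤ k) (m : ℕ) : 0 ≤ coeff m (G k 2 - G (k + 1) 1) := by
  have h := diff_eq k 1 (by omega)
  rw [show (1:ℕ) + 1 = 2 by norm_num] at h
  rw [h]
  by_cases h3 : k = 3
  · subst h3
    simp
  have hw : NN ((1 - (X : PowerSeries ℚ) ^ (2 * (k - 1 - 2))) * geo 1) := by
    have := NN_div 1 (2 * (k - 1 - 2)) one_pos
    simpa using this
  have hf : NN ((∏ i ∈ range 1, (1 - (X : PowerSeries ℚ) ^ (2 * k + 1 + 2 * i))) *
        ∏ i ∈ range 2, geo (2 * i + 3)) := by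
    obtain ⟨u, v, huv⟩ : ∃ u v : ℕ, 2 * k + 1 = 3 * u + 5 * v := by
      rcases Nat.lt_or_ge 0 ((2 * k + 1) % 3) with h0 | h0
      · by_cases h1 : (2 * k + 1) % 3 = 1
        · exact ⟨(2 * k + 1 - 10) / 3, 2, by omega⟩
        · exact ⟨(2 * k + 1 - 5) / 3, 1, by omega⟩
      · exact ⟨(2 * k + 1) / 3, 0, by omega⟩
    have := NN_frob 3 5 u v (by norm_num) (by norm_num)
    rw [← huv] at this
    simpa [Finset.prod_range_succ, mul_assoc] using this
  exact (((NN_pow _).mul hw).mul hf) m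

/-- distinct denominators divide the exponents of the numerator -/
theorem matching (n k : ℕ) (hk : n + 1 ≤ k) (σ : ℕ → ℕ) (hinj : Set.InjOn σ {i | i + 1 < n})
    (hσ : ∀ i, i + 1 < n → 1 ≤ σ i ∧ σ i ≤ n ∧ (2 * σ i + 1) ∣ (2 * k + 1 + 2 * i))
    (hn : 1 ≤ n) (m : ℕ) : 0 ≤ coeff m (G k n - G (k + 1) (n - 1)) := by
  obtain ⟨n, rfl⟩ : ∃ n', n = n' + 1 := ⟨n - 1, by omega⟩
  rw [Nat.add_sub_cancel, diff_eq k n (by omega)]
  have hw : NN ((1 - (X : PowerSeries ℚ) ^ (2 * (k - n - 2))) * geo 1) := by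
    have := NN_div 1 (2 * (k - n - 2)) one_pos
    simpa using this
  let τ : ℕ → ℕ := fun i => σ i - 1
  have hsub : (range n).image τ ⊆ range (n + 1) := by
    intro j hj
    rw [Finset.mem_image] at hj
    obtain ⟨i, hi, rfl⟩ := hj
    rw [Finset.mem_range] at hi ⊢
    have := hσ i (by omega)
    show σ i - 1 < n + 1
    omega
  have hτ : Set.InjOn τ (range n : Set ℕ) := by
    intro a ha b hb hab
    simp only [Finset.coe_range, Set.mem_Iio] at ha hb
    have h1 := hσ a (by omega)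
    have h2 := hσ b (by omega)
    have h3 : σ a - 1 = σ b - 1 := hab
    exact hinj (show a + 1 < n + 1 by omega) (show b + 1 < n + 1 by omega) (by omega)
  have hf : NN ((∏ i ∈ range n, (1 - (X : PowerSeries ℚ) ^ (2 * k + 1 + 2 * i))) *
        ∏ i ∈ range (n + 1), geo (2 * i + 3)) := by
    rw [← Finset.prod_sdiff hsub, Finset.prod_image hτ, mul_left_comm, ← Finset.prod_mul_distrib]
    apply NN.mul
    · refine Finset.prod_induction _ NN (fun a b ha hb => ha.mul hb) NN_one ?_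
      intro i _
      exact NN_geo _
    · refine Finset.prod_induction _ NN (fun a b ha hb => ha.mul hb) NN_one ?_
      intro i hi
      rw [Finset.mem_range] at hi
      obtain ⟨h1, h2, c, hc⟩ := hσ i (by omega)
      rw [hc]
      have e : 2 * τ i + 3 = 2 * σ i + 1 := by
        show 2 * (σ i - 1) + 3 = _
        omega
      rw [e]
      exact NN_div _ c (by omega)
  exact (((NN_pow _).mul hw).mul hf) m

end Pool.Agent.Helper868_gq
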