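import Mathlib
import Pool.Agent.Helper868_gq.A

set_option autoImplicit false

namespace Pool.Agent.Helper868_gq

open Finset PowerSeries

lemma NN_zero_pow_sum : NN (1 + X + X ^ 3 + X ^ 4 + X ^ 5 + X ^ 6 + X ^ 7 + X ^ 8 + X ^ 9 + X ^ 10
    + X ^ 11 + X ^ 12 : PowerSeries ℚ) := by
  have h1 : NN (X : PowerSeries ℚ) := by simpa using NN_pow 1
  exact (((((((((((NN_one.add h1).add (NN_pow 3)).add (NN_pow 4)).add (NN_pow 5)).add
    (NN_pow 6)).add (NN_pow 7)).add (NN_pow 8)).add (NN_pow 9)).add (NN_pow 10)).add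
    (NN_pow 11)).add (NN_pow 12))

lemma NN_R : NN (X ^ 8 + X ^ 10 + X ^ 11 + X ^ 13 + X ^ 14 + X ^ 15 + X ^ 16 + X ^ 18 + X ^ 19
    + X ^ 6 + X ^ 7 + X ^ 9 + X ^ 10 : PowerSeries ℚ) :=
  ((((((((((((NN_pow 8).add (NN_pow 10)).add (NN_pow 11)).add (NN_pow 13)).add (NN_pow 14)).add
    (NN_pow 15)).add (NN_pow 16)).add (NN_pow 18)).add (NN_pow 19)).add (NN_pow 6)).add
    (NN_pow 7)).add (NN_pow 9)).add (NN_pow 10)

lemma special : NN (((1 - (X : PowerSeries ℚ) ^ 2) * geo 1) *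
    (((1 - X ^ 11) * (1 - X ^ 13)) * (geo 3 * geo 5 * geo 7))) := by
  have h1 := geo_mul 1 (by norm_num)
  have h3 := geo_mul 3 (by norm_num)
  have h5 := geo_mul 5 (by norm_num)
  have h7 := geo_mul 7 (by norm_num)
  rw [pow_one] at h1
  generalize geo 1 = g1 at *
  have N3 := NN_geo 3
  have N5 := NN_geo 5
  have N7 := NN_geo 7
  generalize geo 3 = g3 at *
  generalize geo 5 = g5 at *
  generalize geo 7 = g7 at *
  have a : (1 - (X : PowerSeries ℚ) ^ 11) * g3 * g5 = (1 + X ^ 3) * g5 + X ^ 6 * g3 := by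
    linear_combination (1 + X ^ 3) * g5 * h3 + X ^ 6 * g3 * h5
  have b : (1 - (X : PowerSeries ℚ) ^ 13) * g3 * g7 = (1 + X ^ 3) * g7 + X ^ 6 * g3 := by
    linear_combination (1 + X ^ 3) * g7 * h3 + X ^ 6 * g3 * h7
  have c : (1 - (X : PowerSeries ℚ) ^ 13) * g5 * g7 =
      (1 + X ^ 5 + X ^ 10 + X ^ 15) * g7 - X ^ 13 * g5 := by
    linear_combination (1 + X ^ 5 + X ^ 10 + X ^ 15) * g7 * h5 - X ^ 13 * g5 * h7
  have d : (1 - (X : PowerSeries ℚ) ^ 2) * g1 = 1 + X := by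
    linear_combination (1 + X) * h1
  have e7 : g1 = (1 + X + X ^ 2 + X ^ 3 + X ^ 4 + X ^ 5 + X ^ 6) * g7 := by
    linear_combination -g1 * h7 + (1 + X + X ^ 2 + X ^ 3 + X ^ 4 + X ^ 5 + X ^ 6) * g7 * h1
  have e5 : g1 = (1 + X + X ^ 2 + X ^ 3 + X ^ 4) * g5 := by
    linear_combination -g1 * h5 + (1 + X + X ^ 2 + X ^ 3 + X ^ 4) * g5 * h1
  have key : ((1 - (X : PowerSeries ℚ) ^ 2) * g1) *
      (((1 - X ^ 11) * (1 - X ^ 13)) * (g3 * g5 * g7)) =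
      (X ^ 8 + X ^ 10 + X ^ 11 + X ^ 13 + X ^ 14 + X ^ 15 + X ^ 16 + X ^ 18 + X ^ 19
        + X ^ 6 + X ^ 7 + X ^ 9 + X ^ 10) * g7 + X ^ 12 * g3 + X ^ 13 * g3 +
      (1 + X + X ^ 3 + X ^ 4 + X ^ 5 + X ^ 6 + X ^ 7 + X ^ 8 + X ^ 9 + X ^ 10
    + X ^ 11 + X ^ 12) + X ^ 15 * g5 := by
    have s1 : ((1 - (X : PowerSeries ℚ) ^ 2) * g1) *
      (((1 - X ^ 11) * (1 - X ^ 13)) * (g3 * g5 * g7)) =
      (1 + X) * ((1 + X ^ 3) * ((1 - X ^ 13) * g5 * g7) + X ^ 6 * ((1 - X ^ 13) * g3 * g7)) := by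
      rw [d]
      linear_combination (1 + X) * (1 - X ^ 13) * g7 * a
    rw [s1, c, b]
    have s2 : (1 + X + X ^ 3 + X ^ 4 + X ^ 5 + X ^ 6 + X ^ 9) * g7 = g1 - X ^ 2 := by
      linear_combination (-1 : PowerSeries ℚ) * e7 - X ^ 2 * h7
    have s3 : (1 + X + X ^ 3 + X ^ 4) * g5 = g1 - X ^ 2 * g5 := by
      linear_combination (-1 : PowerSeries ℚ) * e5
    have s4 : (1 - (X : PowerSeries ℚ) ^ 13) * g1 = 1 + X + X ^ 2 + X ^ 3 + X ^ 4 + X ^ 5 + X ^ 6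
        + X ^ 7 + X ^ 8 + X ^ 9 + X ^ 10 + X ^ 11 + X ^ 12 := by
      linear_combination (1 + X + X ^ 2 + X ^ 3 + X ^ 4 + X ^ 5 + X ^ 6
        + X ^ 7 + X ^ 8 + X ^ 9 + X ^ 10 + X ^ 11 + X ^ 12) * h1
    linear_combination s2 - X ^ 13 * s3 + s4
  rw [key]
  exact ((((NN_R.mul N7).add ((NN_pow 12).mul N3)).add ((NN_pow 13).mul N3)).add
    NN_zero_pow_sum).add ((NN_pow 15).mul N5)

theorem case_three (k : ℕ) (hk : 4 ≤ k) (m : ℕ) : 0 ≤ coeff m (G k 3 - G (k + 1) 2) := by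
  have h := diff_eq k 2 (by omega)
  rw [show (2:ℕ) + 1 = 3 by norm_num] at h
  rw [h]
  by_cases h4 : k = 4
  · subst h4
    simp
  have hw : NN ((1 - (X : PowerSeries ℚ) ^ (2 * (k - 2 - 2))) * geo 1) := by
    have := NN_div 1 (2 * (k - 2 - 2)) one_pos
    simpa using this
  have e1 : (∏ i ∈ range 2, (1 - (X : PowerSeries ℚ) ^ (2 * k + 1 + 2 * i))) =
      (1 - X ^ (2 * k + 1)) * (1 - X ^ (2 * k + 3)) := by
    rw [Finset.prod_range_succ, Finset.prod_range_one]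
  have e2 : ∏ i ∈ range 3, geo (2 * i + 3) = geo 3 * geo 5 * geo 7 := by
    rw [Finset.prod_range_succ, Finset.prod_range_succ, Finset.prod_range_one]
  rw [e1, e2]
  by_cases h5 : k = 5
  · subst h5
    have := ((NN_pow (2 * 2 + 3)).mul special) m
    have e : (X : PowerSeries ℚ) ^ (2 * 2 + 3) * ((1 - X ^ (2 * (5 - 2 - 2))) * geo 1) *
        ((1 - X ^ (2 * 5 + 1)) * (1 - X ^ (2 * 5 + 3)) * (geo 3 * geo 5 * geo 7)) =
        X ^ (2 * 2 + 3) * (((1 - (X : PowerSeries ℚ) ^ 2) * geo 1) *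
    (((1 - X ^ 11) * (1 - X ^ 13)) * (geo 3 * geo 5 * geo 7))) := by
      norm_num
      ring
    rw [e]
    exact this
  have hf : NN ((1 - (X : PowerSeries ℚ) ^ (2 * k + 1)) * (1 - X ^ (2 * k + 3)) *
      (geo 3 * geo 5 * geo 7)) := by
    by_cases h10 : k = 10
    · subst h10
      have t1 := NN_div 7 3 (by norm_num)
      have t2 := NN_frob 3 5 1 4 (by norm_num) (by norm_num)
      have := t1.mul t2
      have e : (1 - (X : PowerSeries ℚ) ^ (2 * 10 + 1)) * (1 - X ^ (2 * 10 + 3)) *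
          (geo 3 * geo 5 * geo 7) = (1 - X ^ (7 * 3)) * geo 7 *
          ((1 - X ^ (3 * 1 + 5 * 4)) * geo 3 * geo 5) := by
        norm_num
        ring
      rw [e]
      exact this
    · obtain ⟨u, v, huv⟩ : ∃ u v : ℕ, 2 * k + 1 = 3 * u + 5 * v := by
        rcases Nat.lt_or_ge 0 ((2 * k + 1) % 3) with h0 | h0
        · by_cases h1 : (2 * k + 1) % 3 = 1
          · exact ⟨(2 * k + 1 - 10) / 3, 2, by omega⟩
          · exact ⟨(2 * k + 1 - 5) / 3, 1, by omega⟩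
        · exact ⟨(2 * k + 1) / 3, 0, by omega⟩
      obtain ⟨u', v', huv'⟩ : ∃ u v : ℕ, 2 * k + 3 = 3 * u + 7 * v := by
        by_cases h0 : (2 * k + 3) % 3 = 0
        · exact ⟨(2 * k + 3) / 3, 0, by omega⟩
        · by_cases h1 : (2 * k + 3) % 3 = 1
          · exact ⟨(2 * k + 3 - 7) / 3, 1, by omega⟩
          · exact ⟨(2 * k + 3 - 14) / 3, 2, by omega⟩
      obtain ⟨u'', v'', huv''⟩ : ∃ u v : ℕ, 2 * k + 3 = 5 * u + 7 * v := by
        by_cases h0 : (2 * k + 3) % 5 = 0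
        · exact ⟨(2 * k + 3) / 5, 0, by omega⟩
        · by_cases h1 : (2 * k + 3) % 5 = 1
          · exact ⟨(2 * k + 3 - 21) / 5, 3, by omega⟩
          · by_cases h2 : (2 * k + 3) % 5 = 2
            · exact ⟨(2 * k + 3 - 7) / 5, 1, by omega⟩
            · by_cases h3 : (2 * k + 3) % 5 = 3
              · exact ⟨(2 * k + 3 - 28) / 5, 4, by omega⟩
              · exact ⟨(2 * k + 3 - 14) / 5, 2, by omega⟩
      have t37 := NN_frob 3 7 u' v' (by norm_num) (by norm_num)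
      have t57 := NN_frob 5 7 u'' v'' (by norm_num) (by norm_num)
      rw [← huv'] at t37
      rw [← huv''] at t57
      have hsplit : (1 - (X : PowerSeries ℚ) ^ (2 * k + 1)) * (1 - X ^ (2 * k + 3)) *
          (geo 3 * geo 5 * geo 7) =
          (∑ i ∈ range u, ((X : PowerSeries ℚ) ^ 3) ^ i) *
            ((1 - X ^ (2 * k + 3)) * geo 5 * geo 7) * (geo 3 * (1 - X ^ 3)) +
          X ^ (3 * u) * (∑ i ∈ range v, ((X : PowerSeries ℚ) ^ 5) ^ i) *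
            ((1 - X ^ (2 * k + 3)) * geo 3 * geo 7) * (geo 5 * (1 - X ^ 5)) := by
        have h1 : (1 : PowerSeries ℚ) - X ^ (2 * k + 1) =
            (1 - X ^ 3) * (∑ i ∈ range u, ((X : PowerSeries ℚ) ^ 3) ^ i) +
            X ^ (3 * u) * ((1 - X ^ 5) * ∑ i ∈ range v, ((X : PowerSeries ℚ) ^ 5) ^ i) := by
          rw [← split_geom, ← split_geom, huv, pow_add]; ring
        rw [h1]; ring
      rw [hsplit, geo_mul 3 (by norm_num), geo_mul 5 (by norm_num), mul_one, mul_one]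
      exact ((NN_geom 3 u).mul t57).add (((NN_pow _).mul (NN_geom 5 v)).mul t37)
  exact (((NN_pow _).mul hw).mul hf) m

end Pool.Agent.Helper868_gq
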